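import Pool.Agent.H92.CX.Wal
import Pool.Agent.H37.CC.Core

/-!
# [H92 CX Cor] THEOREM CCC: the core in the form used by the induction, the final theorem
-/

set_option autoImplicit false

namespace Pool.Agent.H92.CX

open Pool.Agent.H98.FJ Pool.Agent.H76.GT
open Pool.Agent.H37.CC (Poc st Crs IsVertex Dim PAct Bas BAct BF bs ds)

section

variable {G H : Type} [Group G] [PartialOrder H] [Poc H] [MulAction G H] [PAct G H]

theorem st_image_sepd {x0 : Set H} (hx : IsVertex x0) (g : G) :
    (fun h : H => st h) '' sepd g x0 = {h : H | g⁻¹ • h ∈ x0 ∧ h ∉ x0} := by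
  ext h
  constructor
  · rintro ⟨k, ⟨h1, h2⟩, rfl⟩
    refine ⟨?_, ?_⟩
    · show g⁻¹ • st k ∈ x0
      rw [psmul_st]
      exact (hx.one _).2 h2
    · intro h3
      exact (hx.one k).1 h3 h1
  · rintro ⟨h1, h2⟩
    refine ⟨st h, ⟨(hx.one h).2 h2, ?_⟩, pst h⟩
    intro h3
    rw [psmul_st] at h3
    exact (hx.one _).1 h3 h1

theorem pst_injective : Function.Injective (fun h : H => st h) := fun a b e => by
  have h1 : st a = st b := e
  rw [← pst a, h1, pst]

end

/-- the core -/
theorem core_of {C : (G : Type) → [Group G] → Prop} (hC : Inherits C) (hT : Transfer C) : Core C := by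
  intro G H _ iP iQ _ _ x0 n N hfg hd hD hs hN hst
  have hfin : ∀ g : G, {h : H | g⁻¹ • h ∈ x0 ∧ h ∉ x0}.Finite := fun g => by
    rw [← st_image_sepd hd.vert g]
    exact (hd.fin g).image _
  let _ : Bas H :=
    { iQ with
      o := x0
      vtx := hd.vert
      fin_up := fun h => by
        obtain ⟨g, hg⟩ := hs h
        refine (hfin g).subset ?_
        rintro k ⟨h1, h2⟩
        exact ⟨hd.vert.up hg (psmul_le.2 h1), h2⟩ }
  have hB : BAct G H :=
    { smul_le := fun g h k => PAct.smul_le g h k
      smul_st := fun g h => PAct.smul_st g h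
      fin := hfin
      sep := hs }
  have hD' : Dim H (n + 1) := fun F hF => (hD F hF).trans n.le_succ
  have hBF : BF G H N := by
    intro B hB1
    obtain ⟨M, hM⟩ := hB1
    have h1 : BO x0 B := by
      refine ⟨M, fun b hb => ?_⟩
      have h2 : {h : H | b⁻¹ • h ∈ x0 ∧ h ∉ x0}.ncard ≤ M := hM b hb
      rwa [← st_image_sepd hd.vert b, Set.ncard_image_of_injective _ pst_injective] at h2
    obtain ⟨h2, h3⟩ := hN B h1
    have h4 : (B : Set G).Finite := Set.toFinite _
    rw [← h4.cast_ncard_eq]
    exact_mod_cast h3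
  exact Pool.Agent.H37.CC.core hC hT hfg n.succ_pos hD' hBF hst

/-- groups which act on wall spaces -/
theorem walls {C : (G : Type) → [Group G] → Prop} (hC : Inherits C) (hT : Transfer C) (G : Type) [Group G]
    (h : ∀ K : Subgroup G, K.FG → ∃ (V : Type) (_ : MulAction K V) (Hs : Set (Set V)) (x : V) (n N : ℕ),
      Walls K V Hs x n N) : C G :=
  locally_walls hC (core_of hC hT) G h

end Pool.Agent.H92.CX
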