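import Pool.Agent.H37.CC.Defs
import Pool.Agent.H76.VC.Ab
import Pool.Agent.H76.GT.DefsT

/-!
# [H92 CX Bas] THEOREM CCC: data for the induction over the dimension, restriction of a pocset
-/

set_option autoImplicit false

namespace Pool.Agent.H92.CX

open Pool.Agent.H98.FJ Pool.Agent.H76.GT
open Pool.Agent.H37.CC (Poc st Crs IsVertex Dim PAct)

section

variable {H : Type} [PartialOrder H] [Poc H]

theorem pst (h : H) : st (st h) = h := Poc.st_st h

theorem pst_iff {h k : H} : st h ≤ st k ↔ k ≤ h := by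
  constructor
  · intro h1
    have := Poc.st_le h1
    rwa [pst, pst] at this
  · exact Poc.st_le

theorem le_pst {h k : H} : h ≤ st k ↔ k ≤ st h := by
  rw [← pst_iff, pst]

theorem pst_le {h k : H} : st h ≤ k ↔ st k ≤ h := by
  rw [← pst_iff, pst]

theorem crs_irrefl (h : H) : ¬ Crs h h := fun h1 => h1.1 le_rfl

theorem crs_symm {h k : H} (h1 : Crs h k) : Crs k h :=
  ⟨h1.2.1, h1.1, fun h2 => h1.2.2.1 (le_pst.1 h2), fun h2 => h1.2.2.2 (pst_le.1 h2)⟩

theorem crs_st {h k : H} (h1 : Crs h k) : Crs (st h) k :=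
  ⟨fun h2 => h1.2.2.2 (pst_le.1 h2), fun h2 => h1.2.2.1 (le_pst.1 h2), fun h2 => h1.2.1 (pst_iff.1 h2), fun h2 =>
    h1.1 (pst_iff.1 h2)⟩

end

section

variable {G H : Type} [Group G] [PartialOrder H] [Poc H] [MulAction G H] [PAct G H]

theorem psmul_le {g : G} {h k : H} : g • h ≤ g • k ↔ h ≤ k := PAct.smul_le g h k

theorem psmul_st (g : G) (h : H) : g • st h = st (g • h) := PAct.smul_st g h

theorem smul_crs {g : G} {h k : H} : Crs (g • h) (g • k) ↔ Crs h k := by
  unfold Crs
  rw [← psmul_st, psmul_le, psmul_le, psmul_le, psmul_le]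

end

/-- the half-spaces which contain the vertex `x` but not its translate by `g` -/
def sepd {G H : Type} [Group G] [MulAction G H] (g : G) (x : Set H) : Set H := {h | h ∈ x ∧ g⁻¹ • h ∉ x}

/-- the data: a vertex, finitely many half-spaces separate it from a translate -/
structure Dat (G : Type) {H : Type} [Group G] [PartialOrder H] [Poc H] [MulAction G H] (x0 : Set H) : Prop where
  vert : IsVertex x0
  fin : ∀ g : G, (sepd g x0).Finite

/-- the elements of `B` move the vertex `x0` by a bounded distance -/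
def BO {G H : Type} [Group G] [MulAction G H] (x0 : Set H) (B : Subgroup G) : Prop :=
  ∃ m : ℕ, ∀ b ∈ B, (sepd b x0).ncard ≤ m

/-- subgroups of `K` with bounded orbits have at most `N` elements -/
def Bdd {G H : Type} [Group G] [MulAction G H] (x0 : Set H) (K : Subgroup G) (N : ℕ) : Prop :=
  ∀ B : Subgroup G, B ≤ K → BO x0 B → Finite B ∧ Nat.card B ≤ N

/-- the theorem for dimension at most `n` -/
def P (C : (G : Type) → [Group G] → Prop) (n : ℕ) : Prop :=
  ∀ (G H : Type) [Group G] [PartialOrder H] [Poc H] [MulAction G H] [PAct G H] (x0 : Set H), Dat G x0 → Dim H n →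
    (∀ K : Subgroup G, K.FG → ∃ N, Bdd x0 K N) → C G

/-- the core: what the other chapters give -/
def Core (C : (G : Type) → [Group G] → Prop) : Prop :=
  ∀ (G H : Type) [Group G] [PartialOrder H] [Poc H] [MulAction G H] [PAct G H] (x0 : Set H) (n N : ℕ), Group.FG G →
    Dat G x0 → Dim H n → (∀ h : H, ∃ g : G, g⁻¹ • h ∈ x0) →
    (∀ B : Subgroup G, BO x0 B → Finite B ∧ Nat.card B ≤ N) →
    (∀ w : H, C (MulAction.stabilizer G w)) → C G

/-! ### restriction to a subgroup and an invariant set of half-spaces -/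

section

variable {G H : Type} [Group G] [PartialOrder H] [Poc H] [MulAction G H]

/-- an invariant set of half-spaces -/
class Inv (K : Subgroup G) (Q : H → Prop) : Prop where
  st : ∀ h, Q h → Q (Pool.Agent.H37.CC.st h)
  smul : ∀ g ∈ K, ∀ h, Q h → Q (g • h)

/-- the restricted set of half-spaces -/
def Sb (_ : Subgroup G) (Q : H → Prop) : Type := {h : H // Q h}

instance (K : Subgroup G) (Q : H → Prop) : PartialOrder (Sb K Q) := inferInstanceAs (PartialOrder {h : H // Q h})

variable {K : Subgroup G} {Q : H → Prop}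

/-- the underlying half-space -/
def vl (K : Subgroup G) (Q : H → Prop) (h : Sb K Q) : H := h.1

omit [PartialOrder H] [Poc H] [MulAction G H] in
theorem vl_inj : Function.Injective (vl K Q) := fun _ _ h => Subtype.ext h

instance [hQ : Inv K Q] : Poc (Sb K Q) where
  st h := ⟨st h.1, hQ.st _ h.2⟩
  st_st h := Subtype.ext (Poc.st_st h.1)
  st_le h := Poc.st_le h
  not_le h := Poc.not_le h.1

instance [hQ : Inv K Q] : MulAction K (Sb K Q) where
  smul g h := ⟨(g : G) • h.1, hQ.smul _ g.2 _ h.2⟩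
  one_smul h := Subtype.ext (one_smul G h.1)
  mul_smul g g' h := Subtype.ext (mul_smul (g : G) (g' : G) h.1)

theorem sb_smul [Inv K Q] (g : K) (h : Sb K Q) : (g • h).1 = (g : G) • h.1 := rfl

theorem sb_st [Inv K Q] (h : Sb K Q) : (st h).1 = st h.1 := rfl

theorem sb_crs [Inv K Q] {h k : Sb K Q} : Crs h k ↔ Crs h.1 k.1 := Iff.rfl

instance [PAct G H] [Inv K Q] : PAct K (Sb K Q) where
  smul_le g h k := PAct.smul_le (g : G) h.1 k.1
  smul_st g h := Subtype.ext (PAct.smul_st (g : G) h.1)

/-- the restricted vertex -/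
def sbx (K : Subgroup G) (Q : H → Prop) (x : Set H) : Set (Sb K Q) := {h | h.1 ∈ x}

theorem sbx_vertex [Inv K Q] {x : Set H} (hx : IsVertex x) : IsVertex (sbx K Q x) where
  one h := hx.one h.1
  up {h k} h1 h2 := hx.up (h := h.1) (k := k.1) h1 h2

theorem sepd_sbx [Inv K Q] (g : K) (x : Set H) :
    vl K Q '' (sepd g (sbx K Q x)) = sepd (g : G) x ∩ {h | Q h} := by
  ext h
  constructor
  · rintro ⟨k, hk, rfl⟩
    exact ⟨⟨hk.1, hk.2⟩, k.2⟩
  · rintro ⟨h1, h2⟩
    exact ⟨⟨h, h2⟩, ⟨h1.1, h1.2⟩, rfl⟩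

theorem sepd_ncard [Inv K Q] (g : K) (x : Set H) :
    (sepd g (sbx K Q x)).ncard = (sepd (g : G) x ∩ {h | Q h}).ncard := by
  rw [← sepd_sbx g x, Set.ncard_image_of_injective _ vl_inj]

theorem sbx_dat [Inv K Q] {x : Set H} (hx : Dat G x) : Dat K (sbx K Q x) where
  vert := sbx_vertex hx.vert
  fin g := by
    refine Set.Finite.of_finite_image (f := vl K Q) ?_ vl_inj.injOn
    rw [sepd_sbx g x]
    exact (hx.fin g).subset Set.inter_subset_left

end

end Pool.Agent.H92.CX
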