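import Pool.Agent.H37.CC.GeoM
import Pool.Agent.H37.CC.Cst
import Pool.Agent.H37.CC.FrF
import Pool.Agent.H88.CX.Br

/-!
# [H92 CX Asm] THEOREM CCC: assembly of the core: generating sets, wide families
-/

set_option autoImplicit false

namespace Pool.Agent.H37.CC

open scoped Pointwise
open Pool.Agent.H98.FJ Pool.Agent.H37.PT Pool.Agent.H76.GT

section

variable {G H : Type} [Group G] [PartialOrder H] [Bas H] [MulAction G H] [BAct G H]

/-- a finite symmetric generating set which contains a given finite set -/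
theorem exists_gn (hfg : Group.FG G) {F : Set G} (hF : F.Finite) : ∃ (S : Set G) (R : ℕ), F ⊆ S ∧ Gn G H S R := by
  obtain ⟨T, hT⟩ := hfg.out
  let A : Set G := F ∪ T ∪ {1}
  have hA : A.Finite := (hF.union T.finite_toSet).union (Set.finite_singleton 1)
  let S : Set G := A ∪ A⁻¹
  have hS : S.Finite := hA.union hA.inv
  have hone : (1 : G) ∈ S := Or.inl (Or.inr rfl)
  have hSinv : S⁻¹ = S := by
    show (A ∪ A⁻¹)⁻¹ = A ∪ A⁻¹
    rw [Set.union_inv, inv_inv, Set.union_comm]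
  have hinv : ∀ s ∈ S, s⁻¹ ∈ S := fun s hs => by
    rw [← hSinv]
    exact Set.inv_mem_inv.2 hs
  let K : Subgroup G :=
    { carrier := {g | ∃ m : ℕ, g ∈ S ^ m}
      mul_mem' := by
        rintro a b ⟨m, hm⟩ ⟨m', hm'⟩
        exact ⟨m + m', by rw [pow_add]; exact Set.mul_mem_mul hm hm'⟩
      one_mem' := ⟨0, by rw [pow_zero]; exact Set.mem_one.2 rfl⟩
      inv_mem' := by
        rintro a ⟨m, hm⟩
        refine ⟨m, ?_⟩
        have h1 : a⁻¹ ∈ (S ^ m)⁻¹ := Set.inv_mem_inv.2 hm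
        rwa [← inv_pow, hSinv] at h1 }
  have hK : K = ⊤ := by
    rw [eq_top_iff, ← hT, Subgroup.closure_le]
    intro t ht
    exact ⟨1, by rw [pow_one]; exact Or.inl (Or.inl (Or.inr ht))⟩
  obtain ⟨R, hR⟩ := (hS.image fun s => ds (bs : Vtx H) (s • bs)).bddAbove
  refine ⟨S, R, fun x hx => Or.inl (Or.inl (Or.inl hx)), hS, hone, hinv, fun g => ?_, fun s hs => hR ⟨s, hs, rfl⟩⟩
  have h1 : g ∈ K := by rw [hK]; exact Subgroup.mem_top g
  exact h1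

end

section

variable {G X H : Type} [Group G] [PartialOrder H] [Bas H]

/-- the region near the centre is the same for `g` and `g * s` -/
structure Same (F : G → X → (Set (Vtx H) × Set H) × Vtx H) (S : Set G) (e1 e rad : ℕ) (g : G) (x : X) (y : Vtx H) :
    Prop where
  mem : y ∈ (F g x).1.1
  near : ds (F g x).2 y ≤ e1
  cen : ∀ s ∈ S, ds (F g x).2 (F (g * s) x).2 ≤ e
  reg : ∀ s ∈ S, ∀ z, ds (F g x).2 z + e ≤ rad → (z ∈ (F g x).1.1 ↔ z ∈ (F (g * s) x).1.1)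
  cf : ∀ s ∈ S, ∀ z ∈ (F g x).1.1, ∀ t, ds (F g x).2 z + t + e ≤ rad → Cf t (F (g * s) x).1 z = Cf t (F g x).1 z

theorem Same.near' {F : G → X → (Set (Vtx H) × Set H) × Vtx H} {S : Set G} {e1 e rad : ℕ} {g : G} {x : X} {y : Vtx H}
    (h : Same F S e1 e rad g x y) {s : G} (hs : s ∈ S) : ds (F (g * s) x).2 y ≤ e1 + e := by
  have h1 := ds_triangle (F (g * s) x).2 (F g x).2 y
  have h2 := h.cen s hs
  rw [ds_comm] at h2
  have h3 := h.near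
  omega

variable [MulAction G H] [BAct G H]

/-- the sets of the object families are wide -/
theorem ob_wide {F : G → X → (Set (Vtx H) × Set H) × Vtx H} {S : Set G} {e1 e rad : ℕ} {g : G} {x : X} {y : Vtx H}
    (h : Same F S e1 e rad g x y) {Rb : G → Set X} (hx : ∀ s ∈ S, x ∈ Rb (g * s)) {Q b r : ℕ} (hb : b ≤ r)
    (hr : r + b + 2 * (e1 + e) + e ≤ rad)
    (hy : ∀ z ∈ (F g x).1.1, ds y z ≤ 2 * (e1 + e) → (∃ γ ∈ Tb G b r (F g x).1 z, ¬ IsOfFinOrder γ) ∧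
      (Ob Q b r (F g x).1 z : Set G) = Ob Q b r (F g x).1 y) {o : Set G} (ho : Ob Q b r (F g x).1 y = o) {s : G} (hs : s ∈ S) :
    x ∈ {x | x ∈ Rb (g * s) ∧ (∃ y ∈ (F (g * s) x).1.1, ds (F (g * s) x).2 y ≤ e1 + e) ∧
      ∀ y ∈ (F (g * s) x).1.1, ds (F (g * s) x).2 y ≤ e1 + e →
        (∃ γ ∈ Tb G b r (F (g * s) x).1 y, ¬ IsOfFinOrder γ) ∧
          (Ob Q b r (F (g * s) x).1 y : Set G) = o} := by
  have h1 := h.cen s hs
  have h2 := h.near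
  refine ⟨hx s hs, ⟨y, (h.reg s hs y (by omega)).1 h.mem, h.near' hs⟩, fun y' hy' hd' => ?_⟩
  have h3 := ds_triangle (F g x).2 (F (g * s) x).2 y'
  have h4 : y' ∈ (F g x).1.1 := (h.reg s hs y' (by omega)).2 hy'
  have h5 := ds_triangle y (F g x).2 y'
  rw [ds_comm y (F g x).2] at h5
  have h6 : Tb G b r (F g x).1 y' = Tb G b r (F (g * s) x).1 y' :=
    Tb_congr h4 hb (h.cf s hs y' h4 (r + b) (by omega)).symm
  obtain ⟨h7, h8⟩ := hy y' h4 (by omega)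
  refine ⟨by rw [← h6]; exact h7, ?_⟩
  rw [← ho, ← h8]
  unfold Ob
  rw [h6]

end

section

variable {G X : Type} [Group G] [TopologicalSpace X] [MulAction G X]

/-- an equivariant family with multiplicity `N` which is wide at the points with the property `Cond` -/
structure FamW (C : (G : Type) → [Group G] → Prop) (N : ℕ) (S : Set G) (Cond : G → X → Prop) (Φ : Fam G X) : Prop where
  N_eq : Φ.N = N
  fam : @IsFam C G X _ _ _ Φ.N Φ.I Φ.act Φ.W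
  wide : ∀ g x, Cond g x → ∃ i, ∀ s ∈ S, x ∈ Φ.W i (g * s)

theorem cover_of {C : (G : Type) → [Group G] → Prop} (hC : Inherits C) {τ : Type} [Fintype τ] (NN : τ → ℕ)
    (Cond : τ → G → X → Prop) {S : Set G} (hS : S.Nonempty) (h : ∀ t, ∃ Φ : Fam G X, FamW C (NN t) S (Cond t) Φ)
    (hc : ∀ g x, ∃ t, Cond t g x) {M : ℕ} (hM : ∑ t, NN t ≤ M + 1) : ∃ U : Set (Set (G × X)), IsCover C M S U := by
  choose Φ hΦ using h
  refine exists_cover_fam hC Φ (fun t => (hΦ t).fam) ?_ S ?_ hS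
  · rw [Finset.sum_congr rfl fun t _ => (hΦ t).N_eq]
    exact hM
  · intro g x
    obtain ⟨t, ht⟩ := hc g x
    exact ⟨t, (hΦ t).wide g x ht⟩

variable {H : Type} [PartialOrder H] [Bas H] [MulAction G H] [BAct G H]

/-- the families of the fractional half-spaces -/
theorem frc_famW {C : (G : Type) → [Group G] → Prop} (hC : Inherits C) (hst : ∀ w : H, C (MulAction.stabilizer G w))
    {n R : ℕ} {S : Set G} (hS : Gn G H S R) {c : X → H → ℝ} (hc : Crd G c) {j : ℕ} (hj : j ≤ n) (D θ : ℕ) :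
    ∃ Φ : Fam G X, FamW C 1 S (fun g x => (∀ s ∈ S, x ∈ Rb0 c n j S D θ (g * s)) ∧ (Frc0 n j S D θ g (c x)).Nonempty ∧
      ∀ s ∈ S, wl (Frc0 n j S D θ (g * s) (c x)) = wl (Frc0 n j S D θ g (c x))) Φ := by
  refine ⟨⟨Set H, inferInstance, fun (A : Set H) (g : G) =>
    {x | x ∈ Rb0 c n j S D θ g ∧ A.Nonempty ∧ wl (Frc0 n j S D θ g (c x)) = A}, 1⟩, rfl, frc_fam hC hst hS hc hj D θ, ?_⟩
  rintro g x ⟨h1, ⟨h, hh⟩, h3⟩
  exact ⟨wl (Frc0 n j S D θ g (c x)), fun s hs => ⟨h1 s hs, ⟨h, Or.inl hh⟩, h3 s hs⟩⟩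

/-- the families of the objects -/
theorem ob_famW {C : (G : Type) → [Group G] → Prop} (hC : Inherits C) {n N : ℕ} (hd : Dim H n) (hN : BF G H N)
    (hst : ∀ w : H, C (MulAction.stabilizer G w)) {Rb : G → Set X} {F : G → X → (Set (Vtx H) × Set H) × Vtx H}
    (hF : Sys Rb F) {Q b r : ℕ} (hQ : 0 < Q)
    (hc : ∀ (P : Set (Vtx H) × Set H), Rgn P → ∀ y ∈ P.1, ∀ x ∈ Tb G b r P y, ∀ z ∈ Tb G b r P y,
      x ^ Q * z ^ Q = z ^ Q * x ^ Q) (S : Set G) {e1 e rad : ℕ} (hb : b ≤ r) (hr : r + b + 2 * (e1 + e) + e ≤ rad) :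
    ∃ Φ : Fam G X, FamW C 1 S (fun g x => (∀ s ∈ S, x ∈ Rb (g * s)) ∧ ∃ y, Same F S e1 e rad g x y ∧
      ∀ z ∈ (F g x).1.1, ds y z ≤ 2 * (e1 + e) → (∃ γ ∈ Tb G b r (F g x).1 z, ¬ IsOfFinOrder γ) ∧
        (Ob Q b r (F g x).1 z : Set G) = Ob Q b r (F g x).1 y) Φ := by
  refine ⟨⟨Set G, Pool.Agent.H54.AX.cact (MonoidHom.id G), _, 1⟩, rfl,
    obj_fam hC hd hN hst hF hQ hc (e1 + e), ?_⟩
  rintro g x ⟨h1, y, h2, h3⟩
  exact ⟨Ob Q b r (F g x).1 y, fun s hs => ob_wide h2 h1 hb hr h3 rfl hs⟩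

/-- the families of the nets -/
theorem net_famW {C : (G : Type) → [Group G] → Prop} (hC : Inherits C) {n N : ℕ} (hn : 0 < n) (hd : Dim H n) (hN : BF G H N)
    {Rb : G → Set X} {F : G → X → (Set (Vtx H) × Set H) × Vtx H} (hF : Sys Rb F) {e1 e rad ρ Λ Δ K K2 : ℕ}
    (hB : Bdd F (ρ + (2 * n + 2) * (4 * (e1 + e))) Λ (e1 + e) Δ K2)
    (hK : (100 * (Δ + 1) ^ 2 * (Nat.log 2 (Nat.log 2 Λ + 2) + 1)) ^ 2 ≤ K)
    (hρ : 2 * n * (4 * (e1 + e)) ≤ ρ)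
    (hc : ∀ (P : Set (Vtx H) × Set H), Rgn P → ∀ y ∈ P.1, (∀ γ ∈ Tb G (2 * n * (4 * (e1 + e))) ρ P y, IsOfFinOrder γ) →
      ((Subgroup.closure (Tb G (4 * (e1 + e)) (ρ + (2 * n + 1) * (4 * (e1 + e))) P y) : Subgroup G) : Set G).encard ≤ N)
    (S : Set G) (hr : (K + 5) * (e1 + e) + ρ + (4 * n + 4) * (4 * (e1 + e)) + (e1 + e) ≤ rad) :
    ∃ Φ : Fam G X, FamW C K2 S (fun g x => (∀ s ∈ S, x ∈ Rb (g * s)) ∧ ∃ y, Same F S e1 e rad g x y ∧
      ∀ γ ∈ Tb G (2 * n * (4 * (e1 + e))) ρ (F g x).1 y, IsOfFinOrder γ) Φ := by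
  obtain ⟨I, act, W, h1, h2⟩ := net_fam hC hn hd hN hF hB hK hρ hc
  refine ⟨⟨I, act, W, K2⟩, rfl, h1, ?_⟩
  rintro g x ⟨h3, y, h4, h5⟩
  have h6 := h4.near
  exact h2 S g x h3 y h4.mem h5 fun s hs => ⟨h4.near' hs, h4.cf s hs y h4.mem _ (by omega)⟩

end

end Pool.Agent.H37.CC
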