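import Pool.Agent.H92.CX.Bas

/-!
# [H92 CX Ind] THEOREM CCC: the induction over the dimension
-/

set_option autoImplicit false

namespace Pool.Agent.H92.CX

open Pool.Agent.H98.FJ Pool.Agent.H76.GT
open Pool.Agent.H37.CC (Poc st Crs IsVertex Dim PAct)

variable {C : (G : Type) → [Group G] → Prop}

section

variable {G H : Type} [Group G] [PartialOrder H] [Poc H] [MulAction G H]

/-- the image of a subgroup of a subgroup -/
theorem nat_card_map {K : Subgroup G} {B : Subgroup K} {N : ℕ}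
    (h : Finite (B.map K.subtype) ∧ Nat.card (B.map K.subtype) ≤ N) : Finite B ∧ Nat.card B ≤ N := by
  have e := (B.equivMapOfInjective K.subtype K.subtype_injective).toEquiv
  obtain ⟨h1, h2⟩ := h
  refine ⟨Finite.of_equiv _ e.symm, ?_⟩
  rw [Nat.card_congr e]
  exact h2

/-- bounded orbits in the restriction give bounded orbits, if only boundedly many other half-spaces separate -/
theorem BO.map {K : Subgroup G} {Q : H → Prop} [Inv K Q] {x : Set H} (hx : Dat G x) {B : Subgroup K}
    (hB : BO (sbx K Q x) B) {m : ℕ} (hm : ∀ b ∈ B, (sepd (b : G) x ∩ {h | ¬ Q h}).ncard ≤ m) :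
    BO x (B.map K.subtype) := by
  obtain ⟨m', hm'⟩ := hB
  refine ⟨m' + m, ?_⟩
  rintro _ ⟨b, hb, rfl⟩
  have h1 := hm' b hb
  rw [sepd_ncard] at h1
  have h2 : sepd (K.subtype b) x ⊆ (sepd (b : G) x ∩ {h | Q h}) ∪ (sepd (b : G) x ∩ {h | ¬ Q h}) := by
    intro h hh
    by_cases hq : Q h
    · exact Or.inl ⟨hh, hq⟩
    · exact Or.inr ⟨hh, hq⟩
  have h3 : ((sepd (b : G) x ∩ {h | Q h}) ∪ (sepd (b : G) x ∩ {h | ¬ Q h})).Finite :=
    ((hx.fin b).subset Set.inter_subset_left).union ((hx.fin b).subset Set.inter_subset_left)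
  calc (sepd (K.subtype b) x).ncard ≤ _ := Set.ncard_le_ncard h2 h3
    _ ≤ _ := Set.ncard_union_le _ _
    _ ≤ m' + m := Nat.add_le_add h1 (hm b hb)

end

/-- the stabiliser of a half-space, by the theorem for smaller dimension -/
theorem stab_mem {n : ℕ} (hn : P C n) {G H : Type} [Group G] [PartialOrder H] [Poc H] [MulAction G H] [PAct G H]
    {x0 : Set H} (hd : Dat G x0) (hD : Dim H (n + 1)) (hs : ∀ h : H, ∃ g : G, g⁻¹ • h ∈ x0) {N : ℕ}
    (hN : ∀ B : Subgroup G, BO x0 B → Finite B ∧ Nat.card B ≤ N) (w : H) : C (MulAction.stabilizer G w) := by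
  classical
  have hinv : Inv (MulAction.stabilizer G w) (fun h => Crs h w) :=
    { st := fun h h1 => crs_st h1
      smul := fun g hg h h1 => by
        have h2 : g • w = w := hg
        have h3 : Crs (g • h) (g • w) := smul_crs.2 h1
        rwa [h2] at h3 }
  refine hn (MulAction.stabilizer G w) (Sb (MulAction.stabilizer G w) (fun h => Crs h w)) (sbx _ _ x0) (sbx_dat hd) ?_ ?_
  · intro F hF
    have h1 : w ∉ F.image (vl (MulAction.stabilizer G w) (fun h => Crs h w)) := by
      intro h2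
      rw [Finset.mem_image] at h2
      obtain ⟨h, _, h3⟩ := h2
      have h4 : Crs h.1 w := h.2
      have h5 : h.1 = w := h3
      rw [h5] at h4
      exact crs_irrefl _ h4
    have h2 := hD (insert w (F.image (vl (MulAction.stabilizer G w) (fun h => Crs h w)))) (by
      intro h hh k hk hne
      rw [Finset.mem_insert, Finset.mem_image] at hh hk
      rcases hh with rfl | ⟨h', hh', rfl⟩
      · rcases hk with rfl | ⟨k', hk', rfl⟩
        · exact absurd rfl hne
        · exact crs_symm k'.2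
      · rcases hk with rfl | ⟨k', hk', rfl⟩
        · exact h'.2
        · exact sb_crs.1 (hF h' hh' k' hk' (fun e => hne (by rw [e]))))
    rw [Finset.card_insert_of_notMem h1, Finset.card_image_of_injective _ vl_inj] at h2
    omega
  · intro K _
    refine ⟨N, fun B _ hB => ?_⟩
    -- a translate which does not contain `w`, and one which does not contain its complement
    obtain ⟨p, hp⟩ := hs w
    obtain ⟨q, hq⟩ := hs (st w)
    have hq' : q⁻¹ • w ∉ x0 := by
      rw [psmul_st] at hq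
      exact (hd.vert.one _).1 hq
    let D : Set H := {h | h ∈ x0 ∧ (h ≤ w ∨ h ≤ st w)}
    have hDf : D.Finite := by
      refine ((hd.fin q).union (hd.fin p)).subset ?_
      rintro h ⟨h1, h2 | h2⟩
      · refine Or.inl ⟨h1, fun h3 => hq' (hd.vert.up h3 (psmul_le.2 h2))⟩
      · refine Or.inr ⟨h1, fun h3 => ?_⟩
        have h4 : p⁻¹ • st w ∈ x0 := hd.vert.up h3 (psmul_le.2 h2)
        rw [psmul_st] at h4
        exact (hd.vert.one _).1 h4 hp
    refine nat_card_map (hN _ (BO.map hd hB (m := D.ncard + D.ncard) ?_))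
    intro b _
    have hb : (b : G) • w = w := b.2
    have hsub : sepd (b : G) x0 ∩ {h | ¬ Crs h w} ⊆ D ∪ (fun h => (b : G) • st h) '' D := by
      rintro h ⟨⟨h1, h2⟩, h3⟩
      by_cases c1 : h ≤ w
      · exact Or.inl ⟨h1, Or.inl c1⟩
      by_cases c2 : h ≤ st w
      · exact Or.inl ⟨h1, Or.inr c2⟩
      refine Or.inr ⟨(b : G)⁻¹ • st h, ⟨?_, ?_⟩, ?_⟩
      · rw [psmul_st]
        exact (hd.vert.one _).2 h2
      · have hb' : (b : G)⁻¹ • w = w := by
          rw [inv_smul_eq_iff]
          exact hb.symm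
        by_cases c3 : w ≤ h
        · right
          have h4 : (b : G)⁻¹ • st h ≤ (b : G)⁻¹ • st w := psmul_le.2 (pst_iff.2 c3)
          rwa [psmul_st _ w, hb'] at h4
        · left
          have c4 : st h ≤ w := by
            by_contra c4
            exact h3 ⟨c1, c3, c2, fun e => c4 (pst_le.1 e)⟩
          have h4 : (b : G)⁻¹ • st h ≤ (b : G)⁻¹ • w := psmul_le.2 c4
          rwa [hb'] at h4
      · show (b : G) • st ((b : G)⁻¹ • st h) = h
        rw [← psmul_st, pst, smul_inv_smul]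
    calc (sepd (b : G) x0 ∩ {h | ¬ Crs h w}).ncard ≤ (D ∪ (fun h => (b : G) • st h) '' D).ncard :=
          Set.ncard_le_ncard hsub (hDf.union (hDf.image _))
      _ ≤ D.ncard + ((fun h => (b : G) • st h) '' D).ncard := Set.ncard_union_le _ _
      _ ≤ D.ncard + D.ncard := Nat.add_le_add_left (Set.ncard_image_le hDf) _

/-- a bounded orbit of the whole group -/
theorem P_zero (hC : Inherits C) : P C 0 := by
  intro G H _ _ _ _ _ x0 hd hD hN
  have hE : IsEmpty H := ⟨fun h => by
    have h1 := hD {h} (by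
      intro a ha b hb hne
      rw [Finset.mem_singleton] at ha hb
      exact absurd (ha.trans hb.symm) hne)
    simp at h1⟩
  refine Pool.Agent.H76.VC.of_fg hC G fun K hK => ?_
  obtain ⟨N, hN⟩ := hN K hK
  refine hC.fin _ (hN K le_rfl ⟨0, fun b _ => ?_⟩).1
  rw [Set.eq_empty_of_isEmpty (sepd b x0), Set.ncard_empty]

/-- the induction step -/
theorem P_succ (hC : Inherits C) (core : Core C) {n : ℕ} (hn : P C n) : P C (n + 1) := by
  intro G H _ _ _ _ _ x0 hd hD hN
  refine Pool.Agent.H76.VC.of_fg hC G fun K hK => ?_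
  obtain ⟨N, hN⟩ := hN K hK
  let Q : H → Prop := fun h => (∃ g ∈ K, g⁻¹ • h ∈ x0) ∧ ∃ g ∈ K, g⁻¹ • st h ∈ x0
  have hinv : Inv K Q :=
    { st := fun h h1 => ⟨h1.2, by rw [pst]; exact h1.1⟩
      smul := by
        rintro g hg h ⟨⟨a, ha, h1⟩, ⟨b, hb, h2⟩⟩
        refine ⟨⟨g * a, K.mul_mem hg ha, ?_⟩, ⟨g * b, K.mul_mem hg hb, ?_⟩⟩
        · rw [mul_inv_rev, mul_smul, inv_smul_smul]
          exact h1
        · rw [mul_inv_rev, mul_smul, ← psmul_st, inv_smul_smul]
          exact h2 }
  have hd' : Dat K (sbx K Q x0) := sbx_dat hd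
  have hD' : Dim (Sb K Q) (n + 1) := by
    classical
    intro F hF
    have h1 := hD (F.image (vl K Q)) (by
      intro h hh k hk hne
      rw [Finset.mem_image] at hh hk
      obtain ⟨h', hh', rfl⟩ := hh
      obtain ⟨k', hk', rfl⟩ := hk
      exact sb_crs.1 (hF h' hh' k' hk' (fun e => hne (by rw [e]))))
    rwa [Finset.card_image_of_injective _ vl_inj] at h1
  have hs : ∀ h : Sb K Q, ∃ g : K, g⁻¹ • h ∈ sbx K Q x0 := by
    intro h
    obtain ⟨⟨g, hg, h1⟩, _⟩ := h.2
    exact ⟨⟨g, hg⟩, h1⟩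
  have hB : ∀ B : Subgroup K, BO (sbx K Q x0) B → Finite B ∧ Nat.card B ≤ N := by
    intro B hB
    refine nat_card_map (hN _ (Subgroup.map_subtype_le B) (BO.map hd hB (m := 0) ?_))
    intro b _
    have h1 : sepd (b : G) x0 ∩ {h | ¬ Q h} = ∅ := by
      refine Set.eq_empty_of_forall_notMem ?_
      rintro h ⟨⟨h1, h2⟩, h3⟩
      refine h3 ⟨⟨1, K.one_mem, by rwa [inv_one, one_smul]⟩, ⟨b, b.2, ?_⟩⟩
      rw [psmul_st]
      exact (hd.vert.one _).2 h2
    rw [h1, Set.ncard_empty]
  have hfg : Group.FG K := (Group.fg_iff_subgroup_fg K).2 hK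
  exact core K (Sb K Q) (sbx K Q x0) (n + 1) N hfg hd' hD' hs hB (fun w => stab_mem hn hd' hD' hs hB w)

/-- the theorem for pocsets -/
theorem P_all (hC : Inherits C) (core : Core C) : ∀ n : ℕ, P C n
  | 0 => P_zero hC
  | n + 1 => P_succ hC core (P_all hC core n)

end Pool.Agent.H92.CX
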