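import Pool.Agent.H92.CX.Ind
import Mathlib.Algebra.Group.Action.Pointwise.Set.Basic

/-!
# [H92 CX Wal] THEOREM CCC: the version for wall spaces
-/

set_option autoImplicit false

namespace Pool.Agent.H92.CX

open Pool.Agent.H98.FJ Pool.Agent.H76.GT
open Pool.Agent.H37.CC (Poc st Crs IsVertex Dim PAct)
open scoped Pointwise

/-- all four intersections of the sets `A` and `B` and their complements are not empty -/
def Cross {V : Type} (A B : Set V) : Prop :=
  (A ∩ B).Nonempty ∧ (A ∩ Bᶜ).Nonempty ∧ (Aᶜ ∩ B).Nonempty ∧ (Aᶜ ∩ Bᶜ).Nonempty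

/-- The group `G` acts on the set `V` and preserves the set `Hs` of subsets of `V` (the half-spaces), which is closed under
complements. Only finitely many half-spaces contain the point `x` but not a translate of `x`. Pairwise crossing half-spaces are at
most `n`. Subgroups which move the point `x` by a bounded distance (the number of half-spaces which contain `x` but not
its translate) have at most `N` elements. -/
structure Walls (G V : Type) [Group G] [MulAction G V] (Hs : Set (Set V)) (x : V) (n N : ℕ) : Prop where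
  smul : ∀ g : G, ∀ h ∈ Hs, g • h ∈ Hs
  compl : ∀ h ∈ Hs, hᶜ ∈ Hs
  fin : ∀ g : G, {h | h ∈ Hs ∧ x ∈ h ∧ g • x ∉ h}.Finite
  dim : ∀ F : Finset (Set V), (F : Set (Set V)) ⊆ Hs → (∀ A ∈ F, ∀ B ∈ F, A ≠ B → Cross A B) → F.card ≤ n
  bdd : ∀ B : Subgroup G, (∃ m : ℕ, ∀ b ∈ B, {h | h ∈ Hs ∧ x ∈ h ∧ b • x ∉ h}.ncard ≤ m) → Finite B ∧ Nat.card B ≤ N

section

variable {G V : Type} [Group G] [MulAction G V]

/-- the pocset of the half-spaces -/
def Hw (_ : Type) (Hs : Set (Set V)) : Type := {h : Set V // h ∈ Hs ∧ h.Nonempty ∧ hᶜ.Nonempty}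

variable {Hs : Set (Set V)} {x : V} {n N : ℕ}

instance : PartialOrder (Hw G Hs) := inferInstanceAs (PartialOrder {h : Set V // h ∈ Hs ∧ h.Nonempty ∧ hᶜ.Nonempty})

/-- the underlying set -/
def hv (h : Hw G Hs) : Set V := h.1

omit [Group G] [MulAction G V] in
theorem hv_inj : Function.Injective (hv : Hw G Hs → Set V) := fun _ _ h => Subtype.ext h

omit [Group G] [MulAction G V] in
theorem hw_le {h k : Hw G Hs} : h ≤ k ↔ h.1 ⊆ k.1 := Iff.rfl

/-- the complement -/
@[reducible] def Walls.poc (hW : Walls G V Hs x n N) : Poc (Hw G Hs) where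
  st h := ⟨h.1ᶜ, hW.compl _ h.2.1, h.2.2.2, by rw [compl_compl]; exact h.2.2.1⟩
  st_st h := Subtype.ext (compl_compl h.1)
  st_le {h k} e := Set.compl_subset_compl.2 (hw_le.1 e)
  not_le h e := by
    obtain ⟨p, hp⟩ := h.2.2.1
    exact hw_le.1 e hp hp

/-- the action on the half-spaces -/
@[reducible] def Walls.act (hW : Walls G V Hs x n N) : MulAction G (Hw G Hs) where
  smul g h := ⟨g • h.1, hW.smul g _ h.2.1, h.2.2.1.smul_set, by
    rw [← Set.smul_set_compl]
    exact h.2.2.2.smul_set⟩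
  one_smul h := Subtype.ext (one_smul G h.1)
  mul_smul g g' h := Subtype.ext (mul_smul g g' h.1)

/-- the theorem for one group -/
theorem walls_mem {C : (G : Type) → [Group G] → Prop} (hC : Inherits C) (core : Core C) (hW : Walls G V Hs x n N) : C G := by
  classical
  let _ := hW.poc
  let _ := hW.act
  have hA : PAct G (Hw G Hs) :=
    { smul_le := fun g h k => Set.smul_set_subset_smul_set_iff
      smul_st := fun g h => Subtype.ext (Set.smul_set_compl (s := h.1) (a := g)) }
  have hx : IsVertex ({h | x ∈ h.1} : Set (Hw G Hs)) :=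
    { one := fun h => Iff.rfl
      up := fun {h k} h1 e => hw_le.1 e h1 }
  have hsep : ∀ g : G, hv '' (sepd g ({h | x ∈ h.1} : Set (Hw G Hs))) = {h | h ∈ Hs ∧ x ∈ h ∧ g • x ∉ h} := by
    intro g
    have key : ∀ h : Set V, x ∈ g⁻¹ • h ↔ g • x ∈ h := fun h => by rw [Set.mem_inv_smul_set_iff]
    ext h
    constructor
    · rintro ⟨k, ⟨h1, h2⟩, rfl⟩
      exact ⟨k.2.1, h1, fun h3 => h2 ((key _).2 h3)⟩
    · rintro ⟨h1, h2, h3⟩
      exact ⟨⟨h, h1, ⟨x, h2⟩, ⟨g • x, h3⟩⟩, ⟨h2, fun h4 => h3 ((key _).1 h4)⟩, rfl⟩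
  have hd : Dat G ({h | x ∈ h.1} : Set (Hw G Hs)) :=
    { vert := hx
      fin := fun g => by
        refine Set.Finite.of_finite_image (f := hv) ?_ hv_inj.injOn
        rw [hsep g]
        exact hW.fin g }
  refine P_all hC core n G (Hw G Hs) {h | x ∈ h.1} hd ?_ ?_
  · intro F hF
    have h1 := hW.dim (F.image hv) (by
      intro h hh
      rw [Finset.mem_coe, Finset.mem_image] at hh
      obtain ⟨k, _, rfl⟩ := hh
      exact k.2.1) (by
      intro A hA B hB hne
      rw [Finset.mem_image] at hA hB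
      obtain ⟨h, hh, rfl⟩ := hA
      obtain ⟨k, hk, rfl⟩ := hB
      obtain ⟨c1, c2, c3, c4⟩ := hF h hh k hk (fun e => hne (by rw [e]))
      have e1 : ∀ A B : Set V, ¬ A ⊆ B → (A ∩ Bᶜ).Nonempty := fun A B => Set.inter_compl_nonempty_iff.2
      refine ⟨?_, e1 _ _ c1, ?_, ?_⟩
      · have h3 : (h.1 ∩ (k.1ᶜ)ᶜ).Nonempty := e1 _ _ c3
        rwa [compl_compl] at h3
      · rw [Set.inter_comm]
        exact e1 _ _ c2
      · rw [Set.inter_comm]
        exact e1 _ _ c4)
    rwa [Finset.card_image_of_injective _ hv_inj] at h1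
  · intro K _
    refine ⟨N, fun B _ hB => hW.bdd B ?_⟩
    obtain ⟨m, hm⟩ := hB
    refine ⟨m, fun b hb => ?_⟩
    rw [← hsep b, Set.ncard_image_of_injective _ hv_inj]
    exact hm b hb

end

/-- the theorem for groups whose finitely generated subgroups act on wall spaces -/
theorem locally_walls {C : (G : Type) → [Group G] → Prop} (hC : Inherits C) (core : Core C) (G : Type) [Group G]
    (h : ∀ K : Subgroup G, K.FG → ∃ (V : Type) (_ : MulAction K V) (Hs : Set (Set V)) (x : V) (n N : ℕ),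
      Walls K V Hs x n N) : C G := by
  refine Pool.Agent.H76.VC.of_fg hC G fun K hK => ?_
  obtain ⟨V, _, Hs, x, n, N, hW⟩ := h K hK
  exact walls_mem hC core hW

end Pool.Agent.H92.CX
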